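import Pool.Agent.H698.HF.Core
import Pool.Graph.R_pool_sql_team_seeded_1e53cb71.Helper54K9.Mono.Main

set_option autoImplicit false

/-! # 3SUM and circuits with unknown inputs (helper698) -/

open scoped Classical
open Finset

namespace Pool.Agent.H698.UT

open Pool.Agent.H698.HF
open Helper54K9.Mono (HasZeroSum Gate Avail Circuit)

/-- the integers between `-W` and `W` -/
abbrev Num (W : ℕ) : Type := ↥(Set.Icc (-(W : ℤ)) (W : ℤ))

/-- the bits of a set of integers: is `z` in `S`? -/
def bit (W : ℕ) (S : Finset ℤ) (z : Num W) : Prop := (z : ℤ) ∈ S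

/-- The random circuit which is `l γ` with probability `w γ`, with the output gate `out γ` and the
upper set `acc γ` of values that mean alarm, solves 3SUM for the sets of at most `n` integers in
`[-W, W]`: if the elements of such a set `S` are known to be present, nothing is known about the other
integers, and three different elements of `S` have the sum zero, then it raises the alarm with
probability at least `2 / 3`; if it is known for all integers in `[-W, W]` whether they belong to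
such a set without solution then it raises the alarm with probability at most `1 / 3`. -/
def Solves (n W : ℕ) {D : Type} [PartialOrder D] {Γ : Type} [Fintype Γ] (w : Γ → ℝ)
    (l : Γ → List (Know (Num W) → D)) : Prop :=
  ∃ (out : Γ → Know (Num W) → D) (acc : Γ → Set D), (∀ γ, out γ ∈ l γ) ∧
    (∀ γ, IsUpperSet (acc γ)) ∧
    ∀ S : Finset ℤ, (∀ a ∈ S, a ∈ Set.Icc (-(W : ℤ)) W) → S.card ≤ n →
      (HasZeroSum S → ∑ γ, (if out γ (truths (bit W S)) ∈ acc γ then 0 else w γ) ≤ 1 / 3) ∧
      (¬ HasZeroSum S → ∑ γ, (if out γ (full (bit W S)) ∈ acc γ then w γ else 0) ≤ 1 / 3)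

section sim

variable {W : ℕ}

/-- the functions in the list are computed by gates of a circuit of this size -/
def Pr (W : ℕ) (l : List (Finset ℤ → ℝ)) : Prop :=
  ∃ gate : ℕ → Finset ℤ → ℝ,
    (∀ i < l.length, Gate 2 (Avail (Set.Icc (-(W : ℤ)) (W : ℤ)) gate i) (gate i)) ∧
    ∀ f ∈ l, ∃ j < l.length, gate j = f

theorem avail_congr {U : Set ℤ} {g g' : ℕ → Finset ℤ → ℝ} {i : ℕ} (h : ∀ j < i, g j = g' j)
    {u : Finset ℤ → ℝ} (hu : Avail U g i u) : Avail U g' i u := by
  cases hu with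
  | const c => exact Avail.const c
  | input v hv => exact Avail.input v hv
  | gate j hj => rw [h j hj]; exact Avail.gate j hj

theorem gate_imp {κ : ℕ} {A A' : (Finset ℤ → ℝ) → Prop} (h : ∀ u, A u → A' u)
    {f : Finset ℤ → ℝ} (hf : Gate κ A f) : Gate κ A' f := by
  cases hf with
  | max k u hu => exact Gate.max k u fun j => h _ (hu j)
  | min k u hu => exact Gate.min k u fun j => h _ (hu j)
  | mono φ hφ u hu => exact Gate.mono φ hφ u fun j => h _ (hu j)

theorem pr_cons {l : List (Finset ℤ → ℝ)} {f : Finset ℤ → ℝ}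
    (h : ∃ gate : ℕ → Finset ℤ → ℝ,
      (∀ i < l.length, Gate 2 (Avail (Set.Icc (-(W : ℤ)) (W : ℤ)) gate i) (gate i)) ∧
      (∀ g ∈ l, ∃ j < l.length, gate j = g) ∧
      Gate 2 (Avail (Set.Icc (-(W : ℤ)) (W : ℤ)) gate l.length) f) : Pr W (f :: l) := by
  obtain ⟨gate, h1, h2, h3⟩ := h
  have hup : ∀ i ≤ l.length, ∀ j < i, gate j = Function.update gate l.length f j :=
    fun i hi j hj => by rw [Function.update_of_ne (by omega)]
  refine ⟨Function.update gate l.length f, fun i hi => ?_, fun g hg => ?_⟩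
  · rw [List.length_cons] at hi
    rcases Nat.lt_succ_iff_lt_or_eq.1 hi with h | rfl
    · rw [Function.update_of_ne (by omega)]
      exact gate_imp (fun u hu => avail_congr (hup i h.le) hu) (h1 i h)
    · rw [Function.update_self]
      exact gate_imp (fun u hu => avail_congr (hup _ le_rfl) hu) h3
  · rw [List.length_cons]
    rcases List.mem_cons.1 hg with rfl | hg
    · exact ⟨l.length, by omega, Function.update_self ..⟩
    · obtain ⟨j, hj, hj'⟩ := h2 g hg
      exact ⟨j, by omega, by rw [Function.update_of_ne (by omega), hj']⟩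

theorem pr_nil : Pr W [] := ⟨fun _ _ => 0, fun i hi => absurd hi (by simp),
  fun f hf => absurd hf (by simp)⟩

theorem gate_of_avail {U : Set ℤ} {g : ℕ → Finset ℤ → ℝ} {i : ℕ} {f : Finset ℤ → ℝ}
    (h : Avail U g i f) : Gate 2 (Avail U g i) f := by
  have h := Gate.max (κ := 2) (A := Avail U g i) 0 (fun _ => f) fun _ => h
  simpa using h

theorem pr_bit {l : List (Finset ℤ → ℝ)} (z : Num W) (h : Pr W l) :
    Pr W ((fun S => if bit W S z then 1 else 0) :: l) := by
  obtain ⟨gate, h1, h2⟩ := h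
  refine pr_cons ⟨gate, h1, h2, ?_⟩
  have h3 := gate_of_avail (i := l.length) (Avail.input (U := Set.Icc (-(W : ℤ)) (W : ℤ))
    (g := gate) (z : ℤ) z.2)
  convert h3 using 1
  funext S
  unfold bit Helper54K9.Mono.input
  congr

theorem pr_const {l : List (Finset ℤ → ℝ)} (c : ℝ) (h : Pr W l) : Pr W ((fun _ => c) :: l) := by
  obtain ⟨gate, h1, h2⟩ := h
  exact pr_cons ⟨gate, h1, h2, gate_of_avail (Avail.const c)⟩

theorem pr_gate {l : List (Finset ℤ → ℝ)} (Φ : ℝ → ℝ → ℝ) (F G : Finset ℤ → ℝ) (h : Pr W l)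
    (hΦ : ∀ a a' b b', a ≤ a' → b ≤ b' → Φ a b ≤ Φ a' b') (hF : F ∈ l) (hG : G ∈ l) :
    Pr W ((fun S => Φ (F S) (G S)) :: l) := by
  obtain ⟨gate, h1, h2⟩ := h
  refine pr_cons ⟨gate, h1, h2, ?_⟩
  obtain ⟨i, hi, rfl⟩ := h2 F hF
  obtain ⟨j, hj, rfl⟩ := h2 G hG
  exact Gate.mono (κ := 2) (fun z => Φ (z 0) (z 1))
    (fun x y hxy => hΦ _ _ _ _ (hxy 0) (hxy 1)) ![gate i, gate j] (by
      intro k
      fin_cases k
      · exact Avail.gate i hi
      · exact Avail.gate j hj)

end sim

theorem lower (n W : ℕ) (hn : 1 ≤ n) (hnW : n ≤ W) {D : Type} [PartialOrder D] (hD : TreeLike D)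
    {Γ : Type} [Fintype Γ] (w : Γ → ℝ) (hw : ∀ γ, 0 ≤ w γ) (hw1 : ∑ γ, w γ = 1)
    (l : Γ → List (Know (Num W) → D)) (hl : ∀ γ, Circ (l γ)) (hs : Solves n W w l) :
    (n : ℝ) ^ 2 ≤ 5 * 2 ^ (92 * √(Real.logb 2 n)) * (∑ γ, w γ * (l γ).length + 3) := by
  obtain ⟨out, acc, h1, h2, h3⟩ := hs
  have hsim := fun γ => simulate_out hD (bit W) (Pr W) pr_nil (fun l' e hl' => pr_bit e hl')
    (fun l' c hl' => pr_const c hl')
    (fun l' Φ F G hl' hΦ hF hG => pr_gate Φ F G hl' hΦ hF hG) (hl γ) (acc γ) (h2 γ) (h1 γ)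
  have hsim2 : ∀ γ, ∃ C : Circuit 2 (Set.Icc (-(W : ℤ)) (W : ℤ)), C.size = (l γ).length + 2 ∧
      ∀ S, C.Accepts S ↔ out γ (truths (bit W S)) ∈ acc γ := by
    intro γ
    obtain ⟨l', g1, g2, F, g3, g4⟩ := hsim γ
    have g5 := pr_gate (fun a _ => if 1 ≤ a then 1 else 0) F F g1 (fun a a' b b' h h' => by
      by_cases h5 : (1 : ℝ) ≤ a
      · rw [if_pos h5, if_pos (h5.trans h)]
      · rw [if_neg h5]
        split_ifs <;> norm_num) g3 g3
    obtain ⟨gate, k1, k2⟩ := g5
    obtain ⟨j, hj, hj'⟩ := k2 _ List.mem_cons_self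
    refine ⟨⟨_, gate, k1, gate j, Avail.gate j hj⟩, ?_, fun S => ?_⟩
    · simp only [List.length_cons, g2]
    · unfold Circuit.Accepts
      rw [g4 S]
      show 0 < gate j S ↔ _
      rw [hj']
      dsimp only
      by_cases h5 : 1 ≤ F S
      · rw [if_pos h5]
        exact ⟨fun _ => h5, fun _ => one_pos⟩
      · rw [if_neg h5]
        exact ⟨fun h => absurd h (lt_irrefl 0), fun h => absurd h h5⟩
  choose C hC1 hC2 using hsim2
  have hdec : Helper54K9.Mono.Decides n W w C := by
    intro S hS hSn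
    refine ⟨fun hz => ?_, fun hz => ?_⟩
    · refine le_trans (le_of_eq ?_) ((h3 S hS hSn).1 hz)
      refine sum_congr rfl fun γ _ => ?_
      by_cases h5 : out γ (truths (bit W S)) ∈ acc γ
      · rw [if_pos h5, if_pos ((hC2 γ S).2 h5)]
      · rw [if_neg h5, if_neg fun h => h5 ((hC2 γ S).1 h)]
    · refine le_trans (sum_le_sum fun γ _ => ?_) ((h3 S hS hSn).2 hz)
      by_cases h5 : out γ (truths (bit W S)) ∈ acc γ
      · have h6 : out γ (full (bit W S)) ∈ acc γ :=
          h2 γ ((hl γ).mono _ (h1 γ) _ _ (truths_le_full _)) h5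
        rw [if_pos h6, if_pos ((hC2 γ S).2 h5)]
      · rw [if_neg fun h => h5 ((hC2 γ S).1 h)]
        split_ifs
        · exact hw γ
        · exact le_rfl
  have hmain := Helper54K9.Mono.lower_bound n W hn hnW w hw hw1 C hdec
  have e1 : ∑ γ, w γ * ((C γ).size : ℝ) + 1 = ∑ γ, w γ * ((l γ).length : ℝ) + 3 := by
    have : ∀ γ, w γ * ((C γ).size : ℝ) = w γ * ((l γ).length : ℝ) + 2 * w γ := by
      intro γ
      rw [hC1]
      push_cast
      ring
    rw [sum_congr rfl fun γ _ => this γ, sum_add_distrib, ← mul_sum, hw1]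
    ring
  rw [e1] at hmain
  norm_num at hmain ⊢
  exact hmain

section upper

variable {E D : Type} [PartialOrder D] {a b : D}

/-- OR of ANDs of three inputs -/
theorem or_and [Fintype E] (hab : a < b) (T : List (E × E × E)) :
    ∃ l : List (Know E → D), Circ l ∧ l.length = 3 * T.length + (Fintype.card E + 1) ∧
      (∀ e : E, (fun P : Know E => if P e = some true then b else a) ∈ l) ∧
      (fun P : Know E => if ∃ t ∈ T, P t.1 = some true ∧ P t.2.1 = some true ∧
        P t.2.2 = some true then b else a) ∈ l := by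
  have hba : ¬ b ≤ a := not_le_of_gt hab
  have hle : ∀ (p q : Prop) [Decidable p] [Decidable q], (p → q) →
      (if p then b else a) ≤ (if q then b else a) := by
    intro p q _ _ hpq
    by_cases hp : p
    · rw [if_pos hp, if_pos (hpq hp)]
    · rw [if_neg hp]
      split_ifs
      · exact hab.le
      · exact le_rfl
  have hiff : ∀ (p : Prop) [Decidable p], b ≤ (if p then b else a) ↔ p := by
    intro p _
    by_cases hp : p
    · rw [if_pos hp]; exact ⟨fun _ => hp, fun _ => le_rfl⟩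
    · rw [if_neg hp]; exact ⟨fun h => absurd h hba, fun h => absurd h hp⟩
  induction T with
  | nil =>
    have key : ∀ L : List E, Circ (L.map (fun e (P : Know E) => if P e = some true then b else a) ++
        [fun _ => a]) := by
      intro L
      induction L with
      | nil => exact Circ.const a Circ.nil
      | cons e L ih =>
        refine Circ.input e (fun o => if o = some true then b else a) ih ?_
        intro o
        exact hle _ _ (fun h => absurd h (by simp))
    refine ⟨_, key (univ : Finset E).toList, ?_, fun e => ?_, ?_⟩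
    · rw [List.length_append, List.length_map, Finset.length_toList, Finset.card_univ]
      simp
    · rw [List.mem_append, List.mem_map]
      exact Or.inl ⟨e, Finset.mem_toList.2 (mem_univ e), rfl⟩
    · rw [List.mem_append]
      right
      simp
  | cons t T ih =>
    obtain ⟨l, c1, c2, c3, c4⟩ := ih
    have d1 := Circ.gate (φ := fun x y => if b ≤ x ∧ b ≤ y then b else a) c1
      (fun x x' y y' h1 h2 => hle _ _ fun h => ⟨h.1.trans h1, h.2.trans h2⟩) (c3 t.1) (c3 t.2.1)
    have d2 := Circ.gate (φ := fun x y => if b ≤ x ∧ b ≤ y then b else a) d1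
      (fun x x' y y' h1 h2 => hle _ _ fun h => ⟨h.1.trans h1, h.2.trans h2⟩)
      List.mem_cons_self (List.mem_cons_of_mem _ (c3 t.2.2))
    have d3 := Circ.gate (φ := fun x y => if b ≤ x ∨ b ≤ y then b else a) d2
      (fun x x' y y' h1 h2 => hle _ _ fun h => h.imp (fun h => h.trans h1) (fun h => h.trans h2))
      List.mem_cons_self (List.mem_cons_of_mem _ (List.mem_cons_of_mem _ c4))
    refine ⟨_, d3, ?_, fun e => ?_, ?_⟩
    · simp only [List.length_cons, c2]
      ring
    · exact List.mem_cons_of_mem _ (List.mem_cons_of_mem _ (List.mem_cons_of_mem _ (c3 e)))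
    · refine List.mem_cons.2 (Or.inl ?_)
      funext P
      have e0 : (∃ t' ∈ t :: T, P t'.1 = some true ∧ P t'.2.1 = some true ∧
          P t'.2.2 = some true) ↔ ((P t.1 = some true ∧ P t.2.1 = some true) ∧
          P t.2.2 = some true) ∨ ∃ t ∈ T, P t.1 = some true ∧ P t.2.1 = some true ∧
          P t.2.2 = some true := by
        constructor
        · rintro ⟨t', ht', h⟩
          rcases List.mem_cons.1 ht' with rfl | ht'
          · exact Or.inl ⟨⟨h.1, h.2.1⟩, h.2.2⟩
          · exact Or.inr ⟨t', ht', h⟩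
        · rintro (h | ⟨t', ht', h⟩)
          · exact ⟨t, List.mem_cons_self, h.1.1, h.1.2, h.2⟩
          · exact ⟨t', List.mem_cons_of_mem _ ht', h⟩
      simp only [hiff, e0]

end upper

/-- the number of integers in `[-W, W]` -/
theorem card_num (W : ℕ) : Fintype.card (Num W) = 2 * W + 1 := by
  rw [Fintype.card_ofFinset]
  simp
  omega

theorem upper (W : ℕ) {D : Type} [PartialOrder D] {a b : D} (hab : a < b) :
    ∃ l : List (Know (Num W) → D), Circ l ∧ l.length ≤ 5 * (2 * W + 1) ^ 2 ∧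
      ∀ n : ℕ, Solves n W (fun _ : Unit => (1 : ℝ)) (fun _ => l) := by
  have hba : ¬ b ≤ a := not_le_of_gt hab
  let T : List (Num W × Num W × Num W) := (univ : Finset (Num W × Num W)).toList.filterMap
    fun p => if h : (-((p.1 : ℤ) + p.2) ∈ Set.Icc (-(W : ℤ)) (W : ℤ)) ∧ (p.1 : ℤ) ≠ p.2 ∧
      (p.1 : ℤ) ≠ -((p.1 : ℤ) + p.2) ∧ (p.2 : ℤ) ≠ -((p.1 : ℤ) + p.2) then
        some (p.1, p.2, ⟨-((p.1 : ℤ) + p.2), h.1⟩) else none
  have hT : ∀ t : Num W × Num W × Num W, t ∈ T ↔ (t.1 : ℤ) ≠ t.2.1 ∧ (t.1 : ℤ) ≠ t.2.2 ∧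
      (t.2.1 : ℤ) ≠ t.2.2 ∧ (t.1 : ℤ) + t.2.1 + t.2.2 = 0 := by
    rintro ⟨x, y, z⟩
    simp only [T, List.mem_filterMap, Finset.mem_toList, mem_univ, true_and]
    constructor
    · rintro ⟨p, hp⟩
      split_ifs at hp with h
      simp only [Option.some.injEq, Prod.mk.injEq] at hp
      obtain ⟨rfl, rfl, rfl⟩ := hp
      exact ⟨h.2.1, h.2.2.1, h.2.2.2, by simp⟩
    · rintro ⟨h1, h2, h3, h4⟩
      have h5 : -((x : ℤ) + y) = z := by linarith
      refine ⟨(x, y), ?_⟩
      dsimp only
      rw [dif_pos ⟨by rw [h5]; exact z.2, h1, by rw [h5]; exact h2, by rw [h5]; exact h3⟩]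
      simp only [Option.some.injEq, Prod.mk.injEq, true_and]
      exact Subtype.ext h5
  obtain ⟨l, c1, c2, -, c4⟩ := or_and (a := a) (b := b) (E := Num W) hab T
  have hlenT : T.length ≤ (2 * W + 1) ^ 2 := by
    refine (List.length_filterMap_le _ _).trans ?_
    rw [Finset.length_toList, card_univ, Fintype.card_prod, card_num]
    exact le_of_eq (by ring)
  refine ⟨l, c1, ?_, fun n => ?_⟩
  · rw [c2, card_num]
    have : 2 * W + 1 ≤ (2 * W + 1) ^ 2 := Nat.le_self_pow (by norm_num) _
    have h1 : 1 ≤ (2 * W + 1) ^ 2 := Nat.one_le_pow _ _ (by omega)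
    omega
  · obtain ⟨F0, hF0⟩ : ∃ F0 : Know (Num W) → D, F0 = fun P => if ∃ t ∈ T, P t.1 = some true ∧
        P t.2.1 = some true ∧ P t.2.2 = some true then b else a := ⟨_, rfl⟩
    rw [← hF0] at c4
    have hfind : ∀ (S : Finset ℤ) (P : Know (Num W)), (∀ x ∈ S, x ∈ Set.Icc (-(W : ℤ)) W) →
        (∀ z : Num W, P z = some true ↔ (z : ℤ) ∈ S) →
        F0 P = if HasZeroSum S then b else a := by
      intro S P hS hP
      rw [hF0]
      dsimp only
      refine if_congr ?_ rfl rfl
      constructor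
      · rintro ⟨t, ht, h1, h2, h3⟩
        obtain ⟨k1, k2, k3, k4⟩ := (hT t).1 ht
        exact ⟨_, (hP _).1 h1, _, (hP _).1 h2, _, (hP _).1 h3, k1, k2, k3, k4⟩
      · rintro ⟨x, hx, y, hy, z, hz, k1, k2, k3, k4⟩
        exact ⟨(⟨x, hS x hx⟩, ⟨y, hS y hy⟩, ⟨z, hS z hz⟩), (hT _).2 ⟨k1, k2, k3, k4⟩,
          (hP _).2 hx, (hP _).2 hy, (hP _).2 hz⟩
    refine ⟨fun _ => F0, fun _ => {x | b ≤ x}, fun _ => c4, fun _ x y hxy hx => le_trans hx hxy,
      fun S hS _ => ⟨fun hz => ?_, fun hz => ?_⟩⟩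
    · have h1 : F0 (truths (bit W S)) = b := by
        rw [hfind S _ hS (fun z => by unfold truths bit; simp), if_pos hz]
      have h2 : (F0 (truths (bit W S)) ∈ {x | b ≤ x}) := by
        rw [h1]
        exact le_refl b
      show ∑ γ : Unit, (if F0 (truths (bit W S)) ∈ {x | b ≤ x} then (0 : ℝ) else 1) ≤ 1 / 3
      rw [if_pos h2]
      simp
    · have h1 : F0 (full (bit W S)) = a := by
        rw [hfind S _ hS (fun z => by unfold full bit; simp), if_neg hz]
      have h2 : ¬ (F0 (full (bit W S)) ∈ {x | b ≤ x}) := by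
        rw [h1]
        exact hba
      show ∑ γ : Unit, (if F0 (full (bit W S)) ∈ {x | b ≤ x} then (1 : ℝ) else 0) ≤ 1 / 3
      rw [if_neg h2]
      simp

end Pool.Agent.H698.UT
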